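import Pool.Agent.Q266.RP.Stm3

/-! JOB DEGB of project RP (helper266), second round. -/

namespace Pool.Agent.Q252.RPB

open Pool.Agent.Q266.RP Module

theorem cnt (p : ℕ) {G : Type} [Group G] [Finite G] (Q : G → Prop)
    (h : Nat.card {t : G // Q t} ≤ p) (w : G) (hw : orderOf w = p)
    (hQ : ∀ t ∈ Subgroup.zpowers w, Q t) (a : G) (ha : Q a) : a ∈ Subgroup.zpowers w := by
  have h1 : ((Subgroup.zpowers w : Subgroup G) : Set G) ⊆ {t | Q t} := fun t ht => hQ t ht
  have h2 : ({t | Q t} : Set G).ncard ≤ ((Subgroup.zpowers w : Subgroup G) : Set G).ncard := by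
    have h3 : ((Subgroup.zpowers w : Subgroup G) : Set G).ncard = p := by
      rw [← hw, ← Nat.card_zpowers]
      rfl
    rw [h3]
    exact h
  have h4 := Set.eq_of_subset_of_ncard_le h1 h2 (Set.toFinite _)
  have h5 : a ∈ ({t | Q t} : Set G) := ha
  rw [← h4] at h5
  exact h5

theorem mem_div (p : ℕ) [Fact p.Prime] {G : Type} [Group G] [Finite G] (x a : G)
    (ha : a ∈ Subgroup.zpowers x) (hao : orderOf a = p) :
    Subgroup.zpowers a = Subgroup.zpowers (x ^ (orderOf x / p)) := by
  have hp : p.Prime := Fact.out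
  have hd : p ∣ orderOf x := by
    rw [← hao]
    exact orderOf_dvd_of_mem_zpowers ha
  have hx0 : orderOf x ≠ 0 := (orderOf_pos x).ne'
  have ho : orderOf (x ^ (orderOf x / p)) = p := orderOf_pow_orderOf_div hx0 hd
  have hmem : a ∈ Subgroup.zpowers (x ^ (orderOf x / p)) := by
    rw [← mem_powers_iff_mem_zpowers] at ha
    obtain ⟨i, hi⟩ := ha
    simp only at hi
    have h1 : x ^ (i * p) = 1 := by rw [pow_mul, hi, ← hao, pow_orderOf_eq_one]
    have h2 := orderOf_dvd_of_pow_eq_one h1
    obtain ⟨m, hm⟩ := hd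
    have h3 : orderOf x / p = m := by rw [hm, Nat.mul_div_cancel_left _ hp.pos]
    rw [h3]
    have h4 : m ∣ i := by
      rw [hm, mul_comm i p] at h2
      exact Nat.dvd_of_mul_dvd_mul_left hp.pos h2
    obtain ⟨c, hc⟩ := h4
    rw [← hi, hc, pow_mul]
    exact Subgroup.pow_mem _ (Subgroup.mem_zpowers _) c
  refine Subgroup.eq_of_le_of_card_ge (Subgroup.zpowers_le.2 hmem) ?_
  rw [Nat.card_zpowers, Nat.card_zpowers, hao, ho]

theorem mem_of_orders (p : ℕ) [Fact p.Prime] {G : Type} [Group G] [Finite G] (x a b : G)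
    (ha : a ∈ Subgroup.zpowers x) (hb : b ∈ Subgroup.zpowers x)
    (hao : orderOf a = p) (hbo : orderOf b = p) : a ∈ Subgroup.zpowers b := by
  have h1 := mem_div p x a ha hao
  have h2 := mem_div p x b hb hbo
  rw [h2, ← h1]
  exact Subgroup.mem_zpowers a

theorem mem_of_mem_inf (p : ℕ) [Fact p.Prime] {G : Type} [Group G] [Finite G] (x u : G)
    (huo : orderOf u = p) (h : Subgroup.zpowers x ⊓ Subgroup.zpowers u ≠ ⊥) :
    u ∈ Subgroup.zpowers x := by
  have hp : p.Prime := Fact.out
  rw [Subgroup.ne_bot_iff_exists_ne_one] at h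
  obtain ⟨⟨y, hy⟩, hy1⟩ := h
  have hyne : y ≠ 1 := fun h => hy1 (Subtype.ext h)
  obtain ⟨hyx, hyu⟩ := Subgroup.mem_inf.1 hy
  have h1 : orderOf y ∣ p := by
    rw [← huo]
    exact orderOf_dvd_of_mem_zpowers hyu
  have h2 : orderOf y = p := by
    rcases (Nat.dvd_prime hp).1 h1 with h3 | h3
    · exact absurd (orderOf_eq_one_iff.1 h3) hyne
    · exact h3
  have h3 : u ∈ Subgroup.zpowers y :=
    mem_of_orders p u u y (Subgroup.mem_zpowers u) hyu huo h2
  exact (Subgroup.zpowers_le.2 hyx) h3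

theorem core (hSchur : S_SCHUR) (hDesc : S_DESC) (hOrd : S_ORD) (hDega : S_DEGA) (hBp : S_BP)
    (p : ℕ) [Fact p.Prime] (hp2 : p ≠ 2) (G W : Type) [Group G] [Finite G] [AddCommGroup W]
    [Module ℂ W] [FiniteDimensional ℂ W] (σ : Representation ℂ G W) (hG : IsPGroup p G)
    (hσ : Irr σ) (hW : finrank ℂ W = p) (x z : G) (hx : LinearMap.trace ℂ W (σ x) ≠ 0)
    (hcard : orderOf x * p ^ 2 = Nat.card G) (hz : z ∈ Subgroup.center G) (hzp : z ^ p = 1) :
    z ∈ Subgroup.zpowers x := by
  have hp : p.Prime := Fact.out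
  obtain ⟨τ, hτ, hτ2⟩ := hDesc.2 G W σ (MonoidHom.ker σ) hσ (fun n hn => hn)
  have hinj : ∀ g, τ g = 1 → g = 1 := by
    intro g hg
    induction g using QuotientGroup.induction_on with
    | H g =>
      rw [hτ2] at hg
      exact (QuotientGroup.eq_one_iff g).2 hg
  have hQP : IsPGroup p (G ⧸ MonoidHom.ker σ) := hG.to_quotient _
  have hcd : Nat.card G = Nat.card (G ⧸ MonoidHom.ker σ) * Nat.card (MonoidHom.ker σ) :=
    Subgroup.card_eq_card_quotient_mul_card_subgroup _
  have ho := hOrd.1 G (MonoidHom.ker σ) x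
  have hA := hDega p hp2 (G ⧸ MonoidHom.ker σ) W τ hQP hτ hW (QuotientGroup.mk x)
    (by rw [hτ2]; exact hx)
  rw [hW] at hA
  obtain ⟨a, ha⟩ := hA
  obtain ⟨b, hb⟩ := ho
  have hxpos : 0 < orderOf x := orderOf_pos x
  have hpp : 0 < p ^ 2 := pow_pos hp.pos 2
  have hab : a * b = 1 := by
    have h1 : orderOf x * p ^ 2 * (a * b) = orderOf x * p ^ 2 * 1 := by
      rw [mul_one]
      conv_rhs => rw [hcard, hcd, ha]
      have h2 : orderOf (QuotientGroup.mk x : G ⧸ MonoidHom.ker σ) * p ^ 2 * a *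
          Nat.card (MonoidHom.ker σ) = p ^ 2 * a *
          (orderOf (QuotientGroup.mk x : G ⧸ MonoidHom.ker σ) * Nat.card (MonoidHom.ker σ)) := by
        ring
      rw [h2, hb]
      ring
    exact Nat.eq_of_mul_eq_mul_left (Nat.mul_pos hxpos hpp) h1
  have ha1 : a = 1 := Nat.eq_one_of_mul_eq_one_right hab
  have hb1 : b = 1 := Nat.eq_one_of_mul_eq_one_left hab
  rw [ha1, mul_one] at ha
  rw [hb1, mul_one] at hb
  have hypos : 0 < orderOf (QuotientGroup.mk x : G ⧸ MonoidHom.ker σ) := orderOf_pos _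
  -- the kernel is in zpowers x
  have hker : MonoidHom.ker σ ≤ Subgroup.zpowers x := by
    have h1 : x ^ orderOf (QuotientGroup.mk x : G ⧸ MonoidHom.ker σ) ∈ MonoidHom.ker σ := by
      rw [← QuotientGroup.eq_one_iff]
      rw [QuotientGroup.mk_pow]
      exact pow_orderOf_eq_one _
    have h2 : orderOf (x ^ orderOf (QuotientGroup.mk x : G ⧸ MonoidHom.ker σ)) =
        Nat.card (MonoidHom.ker σ) := by
      rw [orderOf_pow_of_dvd hypos.ne' ⟨_, hb.symm⟩, ← hb, Nat.mul_div_cancel_left _ hypos]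
    have h3 : Subgroup.zpowers (x ^ orderOf (QuotientGroup.mk x : G ⧸ MonoidHom.ker σ)) =
        MonoidHom.ker σ := by
      refine Subgroup.eq_of_le_of_card_ge (Subgroup.zpowers_le.2 h1) ?_
      rw [Nat.card_zpowers, h2]
    rw [← h3]
    exact Subgroup.zpowers_le.2 (Subgroup.pow_mem _ (Subgroup.mem_zpowers x) _)
  obtain ⟨k, hk1, hk2⟩ := hBp p hp2 (G ⧸ MonoidHom.ker σ) W τ hQP hτ hinj hW (QuotientGroup.mk x)
    (by rw [hτ2]; exact hx) ha.symm
  set y : G ⧸ MonoidHom.ker σ := QuotientGroup.mk x with hy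
  have hpd : p ∣ orderOf (y ^ k) := by
    obtain ⟨m, hm⟩ := (IsPGroup.iff_orderOf.1 hQP) (y ^ k)
    rw [hm]
    have hm0 : m ≠ 0 := by
      intro h
      rw [h, pow_zero] at hm
      exact hk2 (orderOf_eq_one_iff.1 hm)
    exact dvd_pow_self p hm0
  have hwo : orderOf ((y ^ k) ^ (orderOf (y ^ k) / p)) = p :=
    orderOf_pow_orderOf_div (orderOf_pos _).ne' hpd
  have hwc : (y ^ k) ^ (orderOf (y ^ k) / p) ∈ Subgroup.center (G ⧸ MonoidHom.ker σ) :=
    Subgroup.pow_mem _ hk1 _
  have hsmall := hSchur.2.1 p (G ⧸ MonoidHom.ker σ) W τ hτ hinj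
  have hz2c : (QuotientGroup.mk z : G ⧸ MonoidHom.ker σ) ∈
      Subgroup.center (G ⧸ MonoidHom.ker σ) := by
    rw [Subgroup.mem_center_iff]
    intro g
    induction g using QuotientGroup.induction_on with
    | H g =>
      rw [← QuotientGroup.mk_mul, ← QuotientGroup.mk_mul, Subgroup.mem_center_iff.1 hz g]
  have hz2p : (QuotientGroup.mk z : G ⧸ MonoidHom.ker σ) ^ p = 1 := by
    rw [← QuotientGroup.mk_pow, hzp]
    rfl
  have hz2 : (QuotientGroup.mk z : G ⧸ MonoidHom.ker σ) ∈
      Subgroup.zpowers ((y ^ k) ^ (orderOf (y ^ k) / p)) := by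
    refine cnt p (fun t => t ∈ Subgroup.center (G ⧸ MonoidHom.ker σ) ∧ t ^ p = 1) hsmall _ hwo
      ?_ _ ⟨hz2c, hz2p⟩
    intro t ht
    refine ⟨(Subgroup.zpowers_le.2 hwc) ht, ?_⟩
    have h1 : orderOf t ∣ p := by
      conv_rhs => rw [← hwo]
      exact orderOf_dvd_of_mem_zpowers ht
    exact orderOf_dvd_iff_pow_eq_one.1 h1
  have hz3 : (QuotientGroup.mk z : G ⧸ MonoidHom.ker σ) ∈ Subgroup.zpowers y := by
    refine (Subgroup.zpowers_le.2 ?_) hz2
    exact Subgroup.pow_mem _ (Subgroup.pow_mem _ (Subgroup.mem_zpowers y) _) _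
  obtain ⟨j, hj⟩ := Subgroup.mem_zpowers_iff.1 hz3
  have h1 : z * (x ^ j)⁻¹ ∈ MonoidHom.ker σ := by
    rw [← QuotientGroup.eq_one_iff]
    rw [QuotientGroup.mk_mul, QuotientGroup.mk_inv, QuotientGroup.mk_zpow, ← hy, hj,
      mul_inv_cancel]
  have h2 : z * (x ^ j)⁻¹ ∈ Subgroup.zpowers x := hker h1
  have h3 : z = z * (x ^ j)⁻¹ * x ^ j := by group
  rw [h3]
  exact Subgroup.mul_mem _ h2 (Subgroup.zpow_mem _ (Subgroup.mem_zpowers x) _)

theorem degb (hOdd : S_ODDPAIR) (hStep : S_STEPB) (hSchur : S_SCHUR) (hDesc : S_DESC)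
    (hOrd : S_ORD) (hDega : S_DEGA) (hBp : S_BP) : S_DEGB := by
  have key : ∀ n : ℕ, ∀ (p : ℕ) [Fact p.Prime], p ≠ 2 → ∀ (P V : Type) [Group P] [Finite P]
      [AddCommGroup V] [Module ℂ V] [FiniteDimensional ℂ V] (ρ : Representation ℂ P V),
      Nat.card P = n → IsPGroup p P → Irr ρ → finrank ℂ V = p ^ 2 →
      ∀ x : P, LinearMap.trace ℂ V (ρ x) ≠ 0 →
      orderOf x * (finrank ℂ V) ^ 2 ∣ Nat.card P := by
    intro n
    induction n using Nat.strong_induction_on with
    | _ n ih =>
    intro p hpf hp2 P V _ _ _ _ _ ρ hn hP hIrr hV x hx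
    have hp : p.Prime := hpf.out
    by_cases hker : ∀ g, ρ g = 1 → g = 1
    · have h2 := hSchur.2.1 p P V ρ hIrr hker
      have hnc : ¬ ∀ a b : P, a * b = b * a := by
        intro hc
        have hd := hSchur.2.2 P V ρ hIrr hc
        rw [hV] at hd
        have h3 : 1 < p ^ 2 := Nat.one_lt_pow (by norm_num) hp.one_lt
        omega
      obtain ⟨e, z, hez⟩ := hOdd p hp2 P hP h2 hnc
      have hep : e ^ p = 1 := hez.1
      have henc : e ∉ Subgroup.center P := hez.2.1
      have hzc : z ∈ Subgroup.center P := hez.2.2.1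
      have hzo : orderOf z = p := hez.2.2.2.1
      have hzp : z ^ p = 1 := by rw [← hzo]; exact pow_orderOf_eq_one z
      obtain ⟨ω, hω⟩ := hSchur.1 P V ρ hIrr z hzc
      have hω1 : ω ≠ 1 := by
        intro h
        have h1 : z = 1 := hker z (by
          ext v
          rw [hω, h, one_smul]
          rfl)
        rw [h1, orderOf_one] at hzo
        exact hp.one_lt.ne hzo
      obtain ⟨hxC, m, hu, hN, W, σ, hσ, hfr, _hres, htr, hcd⟩ :=
        hStep p P V ρ hIrr e z hez ω hω hω1 x hx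
      have hW : finrank ℂ W = p := by
        rw [hV, pow_two] at hfr
        exact (Nat.eq_of_mul_eq_mul_left hp.pos hfr).symm
      have hCP : IsPGroup p (Subgroup.centralizer ({e} : Set P)) := hP.to_subgroup _
      have hQP : IsPGroup p (Subgroup.centralizer ({e} : Set P) ⧸
          Subgroup.zpowers (⟨e * z ^ m, hu⟩ : Subgroup.centralizer ({e} : Set P))) :=
        hCP.to_quotient _
      have hA := hDega p hp2 _ W σ hQP hσ hW (QuotientGroup.mk ⟨x, hxC⟩) htr
      rw [hW] at hA
      -- order of u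
      have huc : e * z ^ m ∉ Subgroup.center P := by
        intro h
        apply henc
        have h3 : e = e * z ^ m * (z ^ m)⁻¹ := by group
        rw [h3]
        exact Subgroup.mul_mem _ h (Subgroup.inv_mem _ (Subgroup.pow_mem _ hzc _))
      have hup : (e * z ^ m) ^ p = 1 := by
        have hcom : Commute e (z ^ m) := by
          have := Subgroup.mem_center_iff.1 (Subgroup.pow_mem _ hzc m) e
          exact this
        rw [hcom.mul_pow, hep, ← pow_mul, mul_comm m p, pow_mul, hzp, one_pow, one_mul]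
      have hu1 : e * z ^ m ≠ 1 := by
        intro h
        apply huc
        rw [h]
        exact Subgroup.one_mem _
      have huo : orderOf (e * z ^ m) = p := orderOf_eq_prime hup hu1
      by_cases hbot : Subgroup.zpowers x ⊓ Subgroup.zpowers (e * z ^ m) = ⊥
      · have hbot' : Subgroup.zpowers (⟨x, hxC⟩ : Subgroup.centralizer ({e} : Set P)) ⊓
            Subgroup.zpowers (⟨e * z ^ m, hu⟩ : Subgroup.centralizer ({e} : Set P)) = ⊥ := by
          rw [eq_bot_iff]
          intro y hy
          obtain ⟨hy1, hy2⟩ := Subgroup.mem_inf.1 hy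
          obtain ⟨i, hi⟩ := Subgroup.mem_zpowers_iff.1 hy1
          obtain ⟨j, hj⟩ := Subgroup.mem_zpowers_iff.1 hy2
          have hy3 : (y : P) ∈ Subgroup.zpowers x ⊓ Subgroup.zpowers (e * z ^ m) := by
            refine Subgroup.mem_inf.2 ⟨Subgroup.mem_zpowers_iff.2 ⟨i, ?_⟩,
              Subgroup.mem_zpowers_iff.2 ⟨j, ?_⟩⟩
            · rw [← hi]
              simp
            · rw [← hj]
              simp
          rw [hbot, Subgroup.mem_bot] at hy3
          rw [Subgroup.mem_bot]
          exact Subtype.ext hy3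
        have ho := hOrd.2 (Subgroup.centralizer ({e} : Set P))
          (Subgroup.zpowers (⟨e * z ^ m, hu⟩ : Subgroup.centralizer ({e} : Set P))) ⟨x, hxC⟩ hbot'
        rw [ho, Subgroup.orderOf_mk] at hA
        rw [hV, hcd]
        have h3 : orderOf x * (p ^ 2) ^ 2 = p ^ 2 * (orderOf x * p ^ 2) := by ring
        rw [h3]
        exact Nat.mul_dvd_mul_left _ hA
      · have hux : e * z ^ m ∈ Subgroup.zpowers x := mem_of_mem_inf p x _ huo hbot
        have ho := hOrd.1 (Subgroup.centralizer ({e} : Set P))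
          (Subgroup.zpowers (⟨e * z ^ m, hu⟩ : Subgroup.centralizer ({e} : Set P))) ⟨x, hxC⟩
        rw [Nat.card_zpowers, Subgroup.orderOf_mk, Subgroup.orderOf_mk, huo] at ho
        obtain ⟨q, hq⟩ := hA
        by_cases hpq : p ∣ q
        · obtain ⟨r, hr⟩ := hpq
          rw [hV, hcd, hq, hr]
          refine dvd_trans (Nat.mul_dvd_mul_right ho _) ?_
          refine ⟨r, ?_⟩
          ring
        · exfalso
          have hq1 : q = 1 := by
            obtain ⟨s, hs⟩ := IsPGroup.iff_card.1 hQP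
            have h3 : q ∣ p ^ s := by
              rw [← hs, hq]
              exact Dvd.intro_left _ rfl
            obtain ⟨t, _, ht⟩ := (Nat.dvd_prime_pow hp).1 h3
            have ht0 : t = 0 := by
              by_contra h
              apply hpq
              rw [ht]
              exact dvd_pow_self p h
            rw [ht, ht0, pow_zero]
          rw [hq1, mul_one] at hq
          have hzC : z ∈ Subgroup.centralizer ({e} : Set P) :=
            Subgroup.center_le_centralizer _ hzc
          have hzcore := core hSchur hDesc hOrd hDega hBp p hp2 _ W σ hQP hσ hW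
            (QuotientGroup.mk ⟨x, hxC⟩) (QuotientGroup.mk ⟨z, hzC⟩) htr hq.symm
            (by
              rw [Subgroup.mem_center_iff]
              intro g
              induction g using QuotientGroup.induction_on with
              | H g =>
                rw [← QuotientGroup.mk_mul, ← QuotientGroup.mk_mul]
                congr 1
                exact Subtype.ext (Subgroup.mem_center_iff.1 hzc (g : P)))
            (by
              rw [← QuotientGroup.mk_pow]
              have h3 : (⟨z, hzC⟩ : Subgroup.centralizer ({e} : Set P)) ^ p = 1 :=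
                Subtype.ext hzp
              rw [h3]
              rfl)
          obtain ⟨j, hj⟩ := Subgroup.mem_zpowers_iff.1 hzcore
          have h4 : (⟨z, hzC⟩ : Subgroup.centralizer ({e} : Set P)) * ((⟨x, hxC⟩ :
              Subgroup.centralizer ({e} : Set P)) ^ j)⁻¹ ∈
              Subgroup.zpowers (⟨e * z ^ m, hu⟩ : Subgroup.centralizer ({e} : Set P)) := by
            rw [← QuotientGroup.eq_one_iff]
            rw [QuotientGroup.mk_mul, QuotientGroup.mk_inv, QuotientGroup.mk_zpow, hj,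
              mul_inv_cancel]
          obtain ⟨i, hi⟩ := Subgroup.mem_zpowers_iff.1 h4
          have h5 : z * (x ^ j)⁻¹ = (e * z ^ m) ^ i := by
            have h6 := congrArg (Subtype.val) hi
            simpa using h6.symm
          have h7 : z ∈ Subgroup.zpowers x := by
            have h8 : z = z * (x ^ j)⁻¹ * x ^ j := by group
            rw [h8, h5]
            exact Subgroup.mul_mem _ (Subgroup.zpow_mem _ hux _)
              (Subgroup.zpow_mem _ (Subgroup.mem_zpowers x) _)
          have h9 : e * z ^ m ∈ Subgroup.zpowers z := mem_of_orders p x _ z hux h7 huo hzo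
          exact huc ((Subgroup.zpowers_le.2 hzc) h9)
    · push Not at hker
      obtain ⟨g, hg1, hg2⟩ := hker
      obtain ⟨σ, hσ, hσ2⟩ := hDesc.2 P V ρ (MonoidHom.ker ρ) hIrr (fun n hn => hn)
      have hQP : IsPGroup p (P ⧸ MonoidHom.ker ρ) := hP.to_quotient _
      have hcd : Nat.card P = Nat.card (P ⧸ MonoidHom.ker ρ) * Nat.card (MonoidHom.ker ρ) :=
        Subgroup.card_eq_card_quotient_mul_card_subgroup _
      have hpos : 0 < Nat.card (P ⧸ MonoidHom.ker ρ) := Nat.card_pos
      have hk : 1 < Nat.card (MonoidHom.ker ρ) := by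
        rw [Finite.one_lt_card_iff_nontrivial]
        exact ⟨⟨⟨g, hg1⟩, 1, fun h => hg2 (congrArg Subtype.val h)⟩⟩
      have hlt : Nat.card (P ⧸ MonoidHom.ker ρ) < n := by
        rw [← hn, hcd]
        nlinarith
      have hih := ih _ hlt p hp2 (P ⧸ MonoidHom.ker ρ) V σ rfl hQP hσ hV
        (QuotientGroup.mk x) (by rw [hσ2]; exact hx)
      have ho := hOrd.1 P (MonoidHom.ker ρ) x
      rw [hcd]
      refine dvd_trans (Nat.mul_dvd_mul_right ho _) ?_
      have h3 : orderOf (QuotientGroup.mk x : P ⧸ MonoidHom.ker ρ) *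
          Nat.card (MonoidHom.ker ρ) * finrank ℂ V ^ 2 =
          orderOf (QuotientGroup.mk x : P ⧸ MonoidHom.ker ρ) * finrank ℂ V ^ 2 *
          Nat.card (MonoidHom.ker ρ) := by ring
      rw [h3]
      exact Nat.mul_dvd_mul_right hih _
  intro p hp hp2 P V _ _ _ _ _ ρ hP hIrr hV x hx
  exact key _ p hp2 P V ρ rfl hP hIrr hV x hx

end Pool.Agent.Q252.RPB
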